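import Pool.Agent.MP_259edd_an.Exists

set_option autoImplicit false

namespace Pool.Agent.Results.MP_259edd_an.Intersection

open Pool.Agent.MP_259edd_an

universe u v

/-- **Intersection property of Lipschitz free `p`-spaces, `0 < p < 1`.**
Let `M` be a complete metric space with base point `o`, and let `(F, N)` with `δ : M → F` be the
Lipschitz free `p`-space of `M`. For every family `K i` of closed subsets of `M` (for example a
decreasing sequence), a vector that lies in the closed linear span `F_p(K i; M)` of `δ '' K i` for
every `i` lies in the closed linear span `F_p(⋂ i, K i; M)` of `δ '' (⋂ i, K i)`.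

The existence of the space `(F, N, δ)` for every `p` and `M` is proved in
`Pool.Agent.MP_259edd_an.isLipschitzFree_freeP`. -/
theorem result (p : ℝ) (hp0 : 0 < p) (hp1 : p < 1) (M : Type u) [MetricSpace M] [CompleteSpace M]
    (o : M) (F : Type u) [AddCommGroup F] [Module ℝ F] (N : F → ℝ) (δ : M → F)
    (hF : IsLipschitzFree p o N δ) (ι : Type v) (K : ι → Set M) (hK : ∀ i, IsClosed (K i)) :
    (⋂ i, closedSpan N (δ '' K i)) ⊆ closedSpan N (δ '' ⋂ i, K i) :=
  intersection hp0 hp1 hF K hK

end Pool.Agent.Results.MP_259edd_an.Intersection
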